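import Pool.Agent.X234.MC.Coding
import Pool.Agent.X234.OM.RT

/-!
Plain complexity of long strings in terms of the rank of an initial segment.
-/

set_option autoImplicit false

namespace Pool.Agent.X234.MC

open Pool.Agent.Helper227 Finset Encodable MeasureTheory Pool.Agent.Helper760.Kolm
open Pool.Agent.Helper446.RE
open scoped ENNReal

/-- universal plain machines -/
def PlainUniversal (V : List Bool →. List Bool) : Prop :=
  Partrec V ∧ ∀ M : List Bool →. List Bool, Partrec M →
    ∃ c : ℕ, ∀ τ y : List Bool, y ∈ M τ → ∃ τ' : List Bool, τ'.length ≤ τ.length + c ∧ y ∈ V τ'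

theorem exists_plain : ∃ V, PlainUniversal V := by
  refine ⟨fun p => (M p 0).bind fun n => Part.ofOption (decode (α := List Bool) n), ?_, ?_⟩
  · exact Partrec.bind (partrec_M.comp Computable.id (Computable.const 0))
      ((Computable.decode.comp Computable.snd).ofOption)
  · intro E hE
    obtain ⟨c, hc⟩ := M_opt (fun p _ => (E p).map encode)
      (Partrec.map (hE.comp Computable.fst) (Computable.encode.comp Computable.snd).to₂)
    refine ⟨c + 1, fun p s hs => ⟨List.replicate c true ++ false :: p, by simp; omega, ?_⟩⟩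
    simp only [Part.mem_bind_iff]
    exact ⟨encode s, hc p 0 (encode s) (Part.mem_map encode hs), by simp⟩

theorem exists_val_eq (i m : ℕ) (h : i < 2 ^ m) : ∃ p : List Bool, p.length = m ∧ val p = i := by
  obtain ⟨p, hp, hv⟩ := exists_val i m h
  refine ⟨p ++ List.replicate (m - p.length) false, by simp; omega, ?_⟩
  rw [← hv]
  have h1 : ∀ k, val (List.replicate k false) = 0 := by
    intro k
    induction k with
    | zero => simp
    | succ k ih => rw [List.replicate_succ, val_cons, ih]; rfl
  clear hv hp h
  generalize m - p.length = k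
  induction p with
  | nil => rw [List.nil_append, h1, val_nil]
  | cons b p ih => rw [List.cons_append, val_cons, val_cons, ih]

theorem ex_lev (l : ℕ) : ∃ j, l ≤ 4 ^ (j + 1) :=
  ⟨l, (Nat.lt_pow_self (by norm_num : 1 < 4)).le.trans (Nat.pow_le_pow_right (by norm_num)
    (Nat.le_succ _))⟩

/-- the level of a length -/
def lev (l : ℕ) : ℕ := Nat.find (ex_lev l)

theorem lev_comp : Computable lev := by
  have h1 : Computable₂ fun (l j : ℕ) => decide (l ≤ 4 ^ (j + 1)) := by
    refine Pool.Agent.Helper446.RE.cdecide (p := fun x : ℕ × ℕ => x.1 ≤ 4 ^ (x.2 + 1)) ?_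
    refine cp_le (by fun_prop) (Pool.Agent.X234.OM.rpow_comp (by fun_prop) (by fun_prop))
  have h2 := Pool.Agent.Helper344.CL.find_comp h1 (fun l => by
    obtain ⟨j, hj⟩ := ex_lev l
    exact ⟨j, by simpa using hj⟩)
  refine h2.of_eq fun l => ?_
  unfold lev
  congr 1
  funext j
  simp

theorem lev_eq {n k j : ℕ} (hn : n ≤ j) (hk : k ≤ n) : lev (k + (4 ^ (j + 1) - n)) = j := by
  have h1 : j < 4 ^ j := Nat.lt_pow_self (by norm_num)
  have h2 : 4 ^ (j + 1) = 4 * 4 ^ j := by rw [pow_succ]; ring
  unfold lev
  rw [Nat.find_eq_iff]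
  refine ⟨by omega, fun i hi => ?_⟩
  have h3 : 4 ^ (i + 1) ≤ 4 ^ j := Nat.pow_le_pow_right (by norm_num) hi
  omega

/-- the machine -/
def mach (q : List Bool) : Option (List Bool) :=
  ((((decode (α := ℕ × List (List Bool)) (lev q.length)).getD (0, [])).2[
    2 ^ (q.length - (4 ^ (lev q.length + 1) -
      ((decode (α := ℕ × List (List Bool)) (lev q.length)).getD (0, [])).1)) - 1 +
    val (q.take (q.length - (4 ^ (lev q.length + 1) -
      ((decode (α := ℕ × List (List Bool)) (lev q.length)).getD (0, [])).1)))]?).map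
    fun y => y ++ q.drop (q.length - (4 ^ (lev q.length + 1) -
      ((decode (α := ℕ × List (List Bool)) (lev q.length)).getD (0, [])).1)))

theorem mach_comp : Computable mach := by
  have hl : Computable fun q : List Bool => lev q.length := lev_comp.comp Computable.list_length
  have hD : Computable fun q : List Bool =>
      (decode (α := ℕ × List (List Bool)) (lev q.length)).getD (0, []) :=
    Computable.option_getD (by fun_prop) (Computable.const _)
  have hk : Computable fun q : List Bool => q.length - (4 ^ (lev q.length + 1) -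
      ((decode (α := ℕ × List (List Bool)) (lev q.length)).getD (0, [])).1) := by
    have h1 : Computable fun q : List Bool => 4 ^ (lev q.length + 1) :=
      Pool.Agent.X234.OM.rpow_comp (by fun_prop) (by fun_prop)
    fun_prop
  have ht : Computable fun q : List Bool => q.take (q.length - (4 ^ (lev q.length + 1) -
      ((decode (α := ℕ × List (List Bool)) (lev q.length)).getD (0, [])).1)) :=
    (Primrec.list_take.to_comp).comp hk Computable.id
  have hd : Computable fun q : List Bool => q.drop (q.length - (4 ^ (lev q.length + 1) -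
      ((decode (α := ℕ × List (List Bool)) (lev q.length)).getD (0, [])).1)) :=
    (Primrec.list_drop.to_comp).comp hk Computable.id
  unfold mach
  refine Computable.option_map ?_ ?_
  · have h2 : Computable fun q : List Bool => 2 ^ (q.length - (4 ^ (lev q.length + 1) -
      ((decode (α := ℕ × List (List Bool)) (lev q.length)).getD (0, [])).1)) :=
      Pool.Agent.X234.OM.rpow_comp (by fun_prop) hk
    have h3 := Pool.Agent.X234.OM.rval_comp ht
    fun_prop
  · show Computable fun x : List Bool × List Bool => x.2 ++ _
    have h4 := hd.comp (Computable.fst (α := List Bool) (β := List Bool))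
    exact Computable.list_append.comp Computable.snd h4

theorem plain_bound {V : List Bool →. List Bool} (hV : PlainUniversal V) : ∃ c : ℕ,
    ∀ (n : ℕ) (L : List (List Bool)) (i : ℕ) (y z : List Bool), L[i]? = some y →
      Nat.log 2 (i + 1) ≤ n → z.length = 4 ^ (encode (n, L) + 1) - n →
      KU V (y ++ z) ≤ Nat.log 2 (i + 1) + z.length + c := by
  obtain ⟨c, hc⟩ := hV.2 (fun q => Part.ofOption (mach q)) mach_comp.ofOption
  refine ⟨c, fun n L i y z hi hk hz => ?_⟩
  obtain ⟨k, hkk⟩ : ∃ k, Nat.log 2 (i + 1) = k := ⟨_, rfl⟩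
  rw [hkk] at hk ⊢
  have h1 : 2 ^ k ≤ i + 1 := by rw [← hkk]; exact Nat.pow_log_le_self 2 (by omega)
  have h2 : i + 1 < 2 ^ (k + 1) := by rw [← hkk]; exact Nat.lt_pow_succ_log_self (by norm_num) _
  have h0 : 1 ≤ 2 ^ k := Nat.one_le_two_pow
  obtain ⟨w, hw, hv⟩ := exists_val_eq (i + 1 - 2 ^ k) k (by rw [pow_succ] at h2; omega)
  have hn : n ≤ encode (n, L) := by
    rw [encode_prod_val]
    exact Nat.left_le_pair _ _
  have hq : (w ++ z).length = k + (4 ^ (encode (n, L) + 1) - n) := by
    rw [List.length_append, hw, hz]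
  have hlev : lev (w ++ z).length = encode (n, L) := by rw [hq]; exact lev_eq hn hk
  have hdec : (decode (α := ℕ × List (List Bool)) (lev (w ++ z).length)).getD (0, []) = (n, L) := by
    rw [hlev, encodek]; rfl
  have hm : mach (w ++ z) = some (y ++ z) := by
    unfold mach
    rw [hdec, hlev]
    have h5 : (w ++ z).length - (4 ^ (encode (n, L) + 1) - n) = k := by rw [hq]; omega
    simp only [h5]
    have h6 : (w ++ z).take k = w := by rw [← hw]; exact List.take_left
    have h7 : (w ++ z).drop k = z := by rw [← hw]; exact List.drop_left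
    rw [h6, h7, hv]
    have h8 : 2 ^ k - 1 + (i + 1 - 2 ^ k) = i := by omega
    rw [h8, hi]
    rfl
  obtain ⟨τ', h9, h10⟩ := hc (w ++ z) (y ++ z) (by rw [hm]; exact Part.mem_some _)
  have h11 := KU_le h10
  rw [List.length_append, hw] at h9
  omega

end Pool.Agent.X234.MC
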