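import Pool.Agent.X234.MC.Plain

/-!
Measures of maximal plain complexity on all lengths have maximal prefix complexity on all lengths.
-/

set_option autoImplicit false

namespace Pool.Agent.X234.MC

open Pool.Agent.Helper227 Finset Encodable MeasureTheory Pool.Agent.Helper760.Kolm
open scoped ENNReal

/-- the average of `F` over the strings of length `n` -/
noncomputable def avg (μ : Measure (ℕ → Bool)) (F : List Bool → ℕ) (n : ℕ) : ℝ :=
  ∑ x : Fin n → Bool, μ.real {X | ∀ i : Fin n, X i = x i} * (F (List.ofFn x) : ℝ)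

section
variable (μ : Measure (ℕ → Bool)) [IsProbabilityMeasure μ]

theorem pre_eq (X : ℕ → Bool) (n : ℕ) : pre X n = List.ofFn fun i : Fin n => X i := by
  refine List.ext_getElem (by simp) fun i h1 h2 => ?_
  rw [getElem_pre]
  simp

theorem meas_restr (n : ℕ) : Measurable fun (X : ℕ → Bool) (i : Fin n) => X i :=
  measurable_pi_lambda _ fun _ => measurable_pi_apply _

theorem avg_eq {n : ℕ} (G : (Fin n → Bool) → ℝ) :
    ∑ x : Fin n → Bool, μ.real {X | ∀ i : Fin n, X i = x i} * G x =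
      ∫ X, G (fun i : Fin n => X i) ∂μ := by
  have h1 : ∫ X, G (fun i : Fin n => X i) ∂μ =
      ∫ x, G x ∂(μ.map fun (X : ℕ → Bool) (i : Fin n) => X i) := by
    rw [integral_map (meas_restr n).aemeasurable]
    exact (measurable_of_finite G).aestronglyMeasurable
  have := Measure.isProbabilityMeasure_map (μ := μ) (meas_restr n).aemeasurable
  rw [h1, integral_fintype (Integrable.of_finite)]
  refine Finset.sum_congr rfl fun x _ => ?_
  rw [map_measureReal_apply (meas_restr n) (measurableSet_singleton x), smul_eq_mul]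
  congr 2
  ext X
  simp only [Set.mem_ofPred_eq, Set.mem_preimage, Set.mem_singleton_iff]
  exact ⟨fun h => funext h, fun h i => congrFun h i⟩

theorem integrable_pre (g : List Bool → ℝ) (n : ℕ) : Integrable (fun X => g (pre X n)) μ := by
  have h1 : (fun X => g (pre X n)) = (fun x : Fin n → Bool => g (List.ofFn x)) ∘
      fun (X : ℕ → Bool) (i : Fin n) => X i := by
    funext X; simp only [Function.comp, pre_eq]
  rw [h1]
  have := Measure.isProbabilityMeasure_map (μ := μ) (meas_restr n).aemeasurable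
  exact (Integrable.of_finite).comp_measurable (meas_restr n)

theorem avg_eq' (F : List Bool → ℕ) (n : ℕ) : avg μ F n = ∫ X, (F (pre X n) : ℝ) ∂μ := by
  unfold avg
  rw [avg_eq μ (fun x : Fin n → Bool => (F (List.ofFn x) : ℝ))]
  simp only [pre_eq]

theorem sum_one (n : ℕ) : ∑ x : Fin n → Bool, μ.real {X | ∀ i : Fin n, X i = x i} = 1 := by
  have h := avg_eq μ (fun _ : Fin n → Bool => 1)
  simpa using h

/-- the strings of length `n` in the order of decreasing measure -/
theorem exists_order (n : ℕ) : ∃ σ : Fin (2 ^ n) ≃ (Fin n → Bool), ∀ i : Fin (2 ^ n),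
    μ.real {X | ∀ j : Fin n, X j = σ i j} ≤ 1 / ((i : ℕ) + 1 : ℝ) := by
  have hcard : Fintype.card (Fin n → Bool) = 2 ^ n := by simp
  let e : Fin (2 ^ n) ≃ (Fin n → Bool) := (Fintype.equivFinOfCardEq hcard).symm
  let p : Fin (2 ^ n) → ℝ := fun i => - μ.real {X | ∀ j : Fin n, X j = e i j}
  refine ⟨(Tuple.sort p).trans e, fun i => ?_⟩
  have hmono := Tuple.monotone_sort p
  rw [le_div_iff₀ (by positivity)]
  have h1 : ∑ k ∈ Finset.univ.filter (fun k : Fin (2 ^ n) => k ≤ i),
      μ.real {X | ∀ j : Fin n, X j = ((Tuple.sort p).trans e) i j} ≤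
      ∑ k ∈ Finset.univ.filter (fun k : Fin (2 ^ n) => k ≤ i),
        μ.real {X | ∀ j : Fin n, X j = ((Tuple.sort p).trans e) k j} := by
    refine Finset.sum_le_sum fun k hk => ?_
    have h2 := hmono (Finset.mem_filter.1 hk).2
    simp only [Function.comp, p] at h2
    simpa using h2
  have h3 : ∑ k ∈ Finset.univ.filter (fun k : Fin (2 ^ n) => k ≤ i),
      μ.real {X | ∀ j : Fin n, X j = ((Tuple.sort p).trans e) k j} ≤ 1 := by
    rw [← sum_one μ n, ← Equiv.sum_comp ((Tuple.sort p).trans e)]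
    exact Finset.sum_le_sum_of_subset_of_nonneg (Finset.filter_subset _ _)
      fun _ _ _ => measureReal_nonneg
  rw [Finset.sum_const, nsmul_eq_mul] at h1
  have h4 : ((Finset.univ.filter (fun k : Fin (2 ^ n) => k ≤ i)).card : ℝ) = (i : ℕ) + 1 := by
    have h5 : Finset.univ.filter (fun k : Fin (2 ^ n) => k ≤ i) = Finset.Iic i := by
      ext k; simp
    rw [h5, Fin.card_Iic]
    push_cast
    ring
  rw [h4] at h1
  linarith

/-- The average logarithm of the rank is large. -/
theorem rank_large {V : List Bool →. List Bool} (hV : PlainUniversal V)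
    (hB : ∃ c : ℝ, ∀ n : ℕ, (n : ℝ) - c ≤ avg μ (KU V) n) :
    ∃ c : ℝ, ∀ n : ℕ, ∀ σ : Fin (2 ^ n) ≃ (Fin n → Bool), (n : ℝ) - c ≤
      ∑ x : Fin n → Bool, μ.real {X | ∀ i : Fin n, X i = x i} *
        (Nat.log 2 ((σ.symm x : ℕ) + 1) : ℝ) := by
  obtain ⟨c0, hc0⟩ := hB
  obtain ⟨c, hc⟩ := plain_bound hV
  refine ⟨c0 + c, fun n σ => ?_⟩
  obtain ⟨L, hL⟩ : ∃ L : List (List Bool), L = List.ofFn fun i : Fin (2 ^ n) => List.ofFn (σ i) :=
    ⟨_, rfl⟩
  obtain ⟨e, he⟩ : ∃ e, e = encode (n, L) := ⟨_, rfl⟩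
  have h1 : n ≤ e := by rw [he, encode_prod_val]; exact Nat.left_le_pair _ _
  obtain ⟨N, hN⟩ : ∃ N, N = 4 ^ (e + 1) := ⟨_, rfl⟩
  have hnN : n ≤ N := by
    have h2 : e < 4 ^ e := Nat.lt_pow_self (by norm_num)
    have h3 : 4 ^ e ≤ 4 ^ (e + 1) := Nat.pow_le_pow_right (by norm_num) (Nat.le_succ _)
    omega
  have hc' : ∀ (i : ℕ) (y z : List Bool), L[i]? = some y → Nat.log 2 (i + 1) ≤ n →
      z.length = N - n → KU V (y ++ z) ≤ Nat.log 2 (i + 1) + z.length + c := by
    intro i y z h2 h3 h4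
    rw [hN, he] at h4
    exact hc n L i y z h2 h3 h4
  clear hc hN
  have key : ∀ X : ℕ → Bool, (KU V (pre X N) : ℝ) ≤
      (Nat.log 2 ((σ.symm (fun i : Fin n => X i) : ℕ) + 1) : ℝ) + ((N : ℝ) - n + c) := by
    intro X
    obtain ⟨i, hi⟩ : ∃ i, i = σ.symm (fun i : Fin n => X i) := ⟨_, rfl⟩
    rw [← hi]
    have h1 : L[(i : ℕ)]? = some (pre X n) := by
      rw [hL, List.getElem?_ofFn, dif_pos i.2, pre_eq]
      simp only [Fin.eta, hi, Equiv.apply_symm_apply]
    have h2 : Nat.log 2 ((i : ℕ) + 1) ≤ n := by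
      have h3 : (i : ℕ) + 1 ≤ 2 ^ n := i.2
      calc Nat.log 2 ((i : ℕ) + 1) ≤ Nat.log 2 (2 ^ n) := Nat.log_mono_right h3
        _ = n := Nat.log_pow (by norm_num) n
    have h6 : ((pre X N).drop n).length = N - n := by simp
    have h4 : pre X N = pre X n ++ (pre X N).drop n := by
      conv_lhs => rw [← List.take_append_drop n (pre X N)]
      congr 1
      refine List.ext_getElem (by simp [hnN]) fun k h5 h6 => ?_
      rw [List.getElem_take, getElem_pre, getElem_pre]
    have h5 := hc' i (pre X n) ((pre X N).drop n) h1 h2 h6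
    rw [← h4, h6] at h5
    have h7 : ((N - n : ℕ) : ℝ) = (N : ℝ) - n := by push_cast [hnN]; ring
    have h8 : (KU V (pre X N) : ℝ) ≤ ((Nat.log 2 ((i : ℕ) + 1) + (N - n) + c : ℕ) : ℝ) := by
      exact_mod_cast h5
    rw [Nat.cast_add, Nat.cast_add, h7] at h8
    linarith
  have h1 := hc0 N
  rw [avg_eq'] at h1
  have hint : Integrable (fun X : ℕ → Bool =>
      (Nat.log 2 ((σ.symm (fun i : Fin n => X i) : ℕ) + 1) : ℝ)) μ := by
    have := Measure.isProbabilityMeasure_map (μ := μ) (meas_restr n).aemeasurable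
    exact (Integrable.of_finite (f := fun x : Fin n → Bool =>
      (Nat.log 2 ((σ.symm x : ℕ) + 1) : ℝ))).comp_measurable (meas_restr n)
  have h2 : ∫ X, (KU V (pre X N) : ℝ) ∂μ ≤
      ∫ X, ((Nat.log 2 ((σ.symm (fun i : Fin n => X i) : ℕ) + 1) : ℝ) + ((N : ℝ) - n + c)) ∂μ :=
    integral_mono (integrable_pre μ (fun s => (KU V s : ℝ)) N) (hint.add (integrable_const _)) key
  rw [integral_add hint (integrable_const _)] at h2
  simp only [integral_const, probReal_univ, smul_eq_mul, one_mul] at h2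
  rw [avg_eq μ (fun x : Fin n → Bool => (Nat.log 2 ((σ.symm x : ℕ) + 1) : ℝ))]
  linarith

/-- (B2) implies (A2). -/
theorem main {V U : List Bool →. List Bool} (hV : PlainUniversal V) (hU : IsUniversal U)
    (num : ℕ → List Bool) (hnum : Computable num)
    (hB : ∃ c : ℝ, ∀ n : ℕ, (n : ℝ) - c ≤ avg μ (KU V) n) :
    ∃ c : ℝ, ∀ n : ℕ, (n : ℝ) + KU U (num n) - c ≤ avg μ (KU U) n := by
  obtain ⟨c, hc⟩ := rank_large μ hV hB
  obtain ⟨d, hd⟩ := coding hU num hnum
  refine ⟨c + d, fun n => ?_⟩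
  obtain ⟨σ, hσ⟩ := exists_order μ n
  have h1 := hc n σ
  obtain ⟨m, hm⟩ : ∃ m : (Fin n → Bool) → ℝ, m = fun x => μ.real {X | ∀ i : Fin n, X i = x i} :=
    ⟨_, rfl⟩
  have hmx : ∀ x : Fin n → Bool, μ.real {X | ∀ i : Fin n, X i = x i} = m x := fun x => by rw [hm]
  have hm0 : ∀ x, 0 ≤ m x := fun x => by rw [hm]; exact measureReal_nonneg
  have hm1 : ∑ x, m x = 1 := by rw [hm]; exact sum_one μ n
  have hmσ : ∀ x, m x * ((σ.symm x : ℕ) + 1 : ℝ) ≤ 1 := by
    intro x
    have h2 := hσ (σ.symm x)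
    rw [Equiv.apply_symm_apply, hmx, le_div_iff₀ (by positivity)] at h2
    exact h2
  unfold avg
  simp only [hmx] at h1 ⊢
  let a : (Fin n → Bool) → ℝ := fun x => (1 / 2 : ℝ) ^ KU U (List.ofFn x) *
    (2 ^ (KU U (num n)) * (1 / 2) ^ d)
  have ha : ∑ x, a x ≤ 1 := by
    simp only [a]
    rw [← Finset.sum_mul]
    have h2 := sum_KU hU (Finset.univ : Finset (Fin n → Bool)) List.ofFn
      (fun x _ y _ h => List.ofFn_injective h) n (fun x _ => by simp)
    have h3 := h2.trans (hd n)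
    calc (∑ x : Fin n → Bool, (1 / 2 : ℝ) ^ KU U (List.ofFn x)) * (2 ^ (KU U (num n)) * (1 / 2) ^ d)
        ≤ (2 ^ d * (1 / 2 : ℝ) ^ KU U (num n)) * (2 ^ (KU U (num n)) * (1 / 2) ^ d) :=
          mul_le_mul_of_nonneg_right h3 (by positivity)
      _ = (2 * (1 / 2)) ^ d * (2 * (1 / 2)) ^ (KU U (num n)) := by
          rw [mul_pow, mul_pow]; ring
      _ = 1 := by norm_num
  have hlog2 : 0 < Real.log 2 := Real.log_pos (by norm_num)
  have key : ∀ x, Real.log 2 * (m x * (Nat.log 2 ((σ.symm x : ℕ) + 1) : ℝ) -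
      m x * (KU U (List.ofFn x) : ℝ) + m x * ((KU U (num n) : ℝ) - d)) ≤ a x - m x := by
    intro x
    rcases (hm0 x).eq_or_lt with h0 | h0
    · rw [← h0]
      simp only [zero_mul, sub_zero, add_zero, mul_zero]
      positivity
    · have ha0 : 0 < a x := by positivity
      have h2 : Real.log (a x / m x) ≤ a x / m x - 1 := Real.log_le_sub_one_of_pos (by positivity)
      have h3 : m x * Real.log (a x / m x) ≤ a x - m x := by
        calc m x * Real.log (a x / m x) ≤ m x * (a x / m x - 1) :=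
              mul_le_mul_of_nonneg_left h2 h0.le
          _ = a x - m x := by field_simp
      refine le_trans ?_ h3
      rw [Real.log_div ha0.ne' h0.ne']
      have h4 : Real.log (a x) = Real.log 2 * (-(KU U (List.ofFn x) : ℝ) + KU U (num n) - d) := by
        simp only [a]
        rw [Real.log_mul (by positivity) (by positivity), Real.log_mul (by positivity)
          (by positivity), Real.log_pow, Real.log_pow, Real.log_pow, one_div, Real.log_inv]
        ring
      have h5 : Real.log 2 * (Nat.log 2 ((σ.symm x : ℕ) + 1) : ℝ) ≤ - Real.log (m x) := by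
        have h6 : (2 : ℝ) ^ (Nat.log 2 ((σ.symm x : ℕ) + 1)) ≤ ((σ.symm x : ℕ) + 1 : ℝ) := by
          have := Nat.pow_log_le_self 2 (x := (σ.symm x : ℕ) + 1) (by omega)
          exact_mod_cast this
        have h7 : m x * (2 : ℝ) ^ (Nat.log 2 ((σ.symm x : ℕ) + 1)) ≤ 1 :=
          (mul_le_mul_of_nonneg_left h6 h0.le).trans (hmσ x)
        have h8 := Real.log_le_log (by positivity) h7
        rw [Real.log_one, Real.log_mul h0.ne' (by positivity), Real.log_pow] at h8
        linarith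
      rw [h4]
      nlinarith [mul_le_mul_of_nonneg_left h5 h0.le]
  have hsum := Finset.sum_le_sum (s := Finset.univ) fun x _ => key x
  rw [Finset.sum_sub_distrib, hm1, ← Finset.mul_sum, Finset.sum_add_distrib,
    Finset.sum_sub_distrib, ← Finset.sum_mul, hm1, one_mul] at hsum
  have h9 : (∑ x : Fin n → Bool, m x * (Nat.log 2 ((σ.symm x : ℕ) + 1) : ℝ)) -
      (∑ x : Fin n → Bool, m x * (KU U (List.ofFn x) : ℝ)) + ((KU U (num n) : ℝ) - d) ≤ 0 := by
    by_contra hc
    push Not at hc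
    have := mul_pos hlog2 hc
    linarith
  linarith

end

end Pool.Agent.X234.MC
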