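import Pool.Agent.W968.SSC.KM

/-!
Requests given by r.e. sets, and the coding theorem for the lengths of outputs.
-/

set_option autoImplicit false

namespace Pool.Agent.X234.MC

open Pool.Agent.Helper227 Finset Encodable MeasureTheory
open scoped ENNReal

/-- Kraft-Chaitin theorem for r.e. sets of requests `(output, length)`. -/
theorem kc_re {U : List Bool →. List Bool} (hU : IsUniversal U) (A : List Bool × ℕ → Prop)
    (hA : REPred A) (hw : ∀ T : Finset (List Bool × ℕ), (∀ x ∈ T, A x) →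
      ∑ x ∈ T, (1 / 2 : ℝ) ^ x.2 ≤ 1) : ∃ c : ℕ, ∀ x, A x → KU U x.1 ≤ x.2 + c := by
  classical
  obtain ⟨q, hq, hmono, he⟩ := S1.of_re hA
  let first : List Bool × ℕ → ℕ → Prop := fun x s => q x s ∧ ∀ s' < s, ¬ q x s'
  have hfirst : PrimrecRel first := by
    refine PrimrecPred.and hq ?_
    refine PP.all_lt (α := (List Bool × ℕ) × ℕ) (f := fun a => a.2)
      (p := fun a s' => ¬ q a.1 s') ?_ Primrec.snd
    exact PrimrecPred.not (hq.comp (Primrec.fst.comp Primrec.fst) Primrec.snd)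
  let dd : ℕ → List Bool × ℕ := fun i => (decode (α := List Bool × ℕ) i.unpair.1).getD ([], 0)
  have hdd : Primrec dd := Primrec.option_getD.comp (Primrec.decode.comp (Primrec.fst.comp
    Primrec.unpair)) (Primrec.const ([], 0))
  let req : ℕ → Option (ℕ × List Bool) := fun i =>
    if encode (dd i) = i.unpair.1 ∧ first (dd i) i.unpair.2 then
      some ((dd i).2, (dd i).1) else none
  have hreq : Primrec req := by
    refine Primrec.ite (PrimrecPred.and ?_ ?_) ?_ (Primrec.const none)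
    · exact Primrec.eq.comp (Primrec.encode.comp hdd) (Primrec.fst.comp Primrec.unpair)
    · exact hfirst.comp hdd (Primrec.snd.comp Primrec.unpair)
    · exact Primrec.option_some.comp (Primrec.pair (Primrec.snd.comp hdd) (Primrec.fst.comp hdd))
  have hb : ∀ n, ∑ i ∈ Finset.range n, KC.wr req i ≤ 1 := by
    intro n
    let S := (Finset.range n).filter fun i => encode (dd i) = i.unpair.1 ∧ first (dd i) i.unpair.2
    have h1 : ∑ i ∈ Finset.range n, KC.wr req i = ∑ i ∈ S, (1 / 2 : ℝ) ^ (dd i).2 := by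
      rw [Finset.sum_filter]
      refine Finset.sum_congr rfl fun i _ => ?_
      by_cases h : encode (dd i) = i.unpair.1 ∧ first (dd i) i.unpair.2
      · simp only [KC.wr, req, if_pos h, Option.elim]
      · simp only [KC.wr, req, if_neg h, Option.elim]
    have hinj : ∀ i ∈ S, ∀ j ∈ S, dd i = dd j → i = j := by
      intro i hi j hj h
      have hi := (Finset.mem_filter.1 hi).2
      have hj := (Finset.mem_filter.1 hj).2
      have h2 : i.unpair.1 = j.unpair.1 := by rw [← hi.1, ← hj.1, h]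
      have h3 : i.unpair.2 = j.unpair.2 := by
        have hi2 := hi.2
        have hj2 := hj.2
        rw [← h] at hj2
        rcases Nat.lt_trichotomy i.unpair.2 j.unpair.2 with h4 | h4 | h4
        · exact absurd hi2.1 (hj2.2 _ h4)
        · exact h4
        · exact absurd hj2.1 (hi2.2 _ h4)
      rw [← Nat.pair_unpair i, ← Nat.pair_unpair j, h2, h3]
    rw [h1]
    have h4 := hw (S.image dd) (by
      intro x hx
      obtain ⟨i, hi, rfl⟩ := Finset.mem_image.1 hx
      have hi := (Finset.mem_filter.1 hi).2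
      exact (he _).2 ⟨_, hi.2.1⟩)
    rw [Finset.sum_image (by
      intro i hi j hj h
      exact hinj i hi j hj h)] at h4
    exact h4
  obtain ⟨V, hV1, hV2, hV3⟩ := KC.kraft_chaitin hreq hb
  obtain ⟨c, hc⟩ := hU.2 V ⟨hV1, hV2⟩
  refine ⟨c, fun x hx => ?_⟩
  have hex : ∃ s, q x s := (he x).1 hx
  let s := Nat.find hex
  have hs : first x s := ⟨Nat.find_spec hex, fun s' h => Nat.find_min hex h⟩
  set i := Nat.pair (encode x) s with hi
  have h1 : i.unpair = (encode x, s) := by rw [hi, Nat.unpair_pair]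
  have h2 : dd i = x := by
    simp only [dd, h1, encodek, Option.getD_some]
  have h3 : req i = some (x.2, x.1) := by
    simp only [req, h2, h1]
    rw [if_pos ⟨trivial, hs⟩]
  obtain ⟨τ, h4, h5⟩ := hV3 i _ _ h3
  obtain ⟨τ', h6, h7⟩ := hc τ _ h5
  have h8 := KU_le h7
  omega

/-- the oracles with a prefix which is a program with an output of length `n` -/
def QS (U : List Bool →. List Bool) (n : ℕ) : Set (ℕ → Bool) :=
  {Z | ∃ t, ∃ y, y ∈ U (pre Z t) ∧ y.length = n}

theorem meas_QS (U : List Bool →. List Bool) (n : ℕ) : MeasurableSet (QS U n) :=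
  measurableSet_open fun _ τ => ∃ y, y ∈ U τ ∧ y.length = n

theorem QS_disj {U : List Bool →. List Bool} (hU : IsMachine U) {n m : ℕ} (h : n ≠ m) :
    Disjoint (QS U n) (QS U m) := by
  rw [Set.disjoint_left]
  rintro Z ⟨t, y, hy, rfl⟩ ⟨t', y', hy', rfl⟩
  exact h (congrArg List.length (Pool.Agent.W968.SSC.OS_unique hU hy hy'))

/-- the measure -/
noncomputable def Q (U : List Bool →. List Bool) (n : ℕ) : ℝ := lam.real (QS U n)

theorem sum_Q {U : List Bool →. List Bool} (hU : IsMachine U) (S : Finset ℕ) :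
    ∑ n ∈ S, Q U n ≤ 1 := by
  unfold Q
  rw [← measureReal_biUnion_finset (fun i _ j _ h => QS_disj hU h) (fun i _ => meas_QS U i)]
  exact measureReal_le_one

theorem sum_KU {U : List Bool →. List Bool} (hU : IsUniversal U) {ι : Type} (S : Finset ι)
    (f : ι → List Bool) (hf : Set.InjOn f S) (n : ℕ) (hlen : ∀ i ∈ S, (f i).length = n) :
    ∑ i ∈ S, (1 / 2 : ℝ) ^ KU U (f i) ≤ Q U n := by
  classical
  have hex : ∀ y, ∃ τ : List Bool, τ.length = KU U y ∧ y ∈ U τ := fun y => hU.exists_min y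
  choose p hp hp2 using hex
  have h1 : ∀ i ∈ S, (1 / 2 : ℝ) ^ KU U (f i) = lam.real (cyl (p (f i))) := by
    intro i _
    unfold Measure.real
    rw [lam_cyl, hp, ENNReal.toReal_pow]
    simp
  rw [Finset.sum_congr rfl h1, ← measureReal_biUnion_finset ?_ (fun i _ => measurableSet_cyl _)]
  · refine measureReal_mono ?_ (measure_ne_top _ _)
    intro Z hZ
    rw [Set.mem_iUnion₂] at hZ
    obtain ⟨i, hi, hZ⟩ := hZ
    rw [mem_cyl_iff] at hZ
    exact ⟨_, f i, by rw [hZ]; exact hp2 _, hlen i hi⟩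
  · intro i hi j hj hij
    rw [Function.onFun, Set.disjoint_left]
    intro Z hZ hZ'
    rw [mem_cyl_iff] at hZ hZ'
    apply hij
    apply hf hi hj
    exact Pool.Agent.W968.SSC.OS_unique hU.1 (t := (p (f i)).length) (t' := (p (f j)).length)
      (by rw [hZ]; exact hp2 _) (by rw [hZ']; exact hp2 _)

theorem Q_re {U : List Bool →. List Bool} (hU : Partrec U) :
    REPred fun x : ℕ × ℕ => (1 / 2 : ℝ) ^ x.2 < Q U x.1 := by
  refine S1.re ?_
  have h1 : S1 fun x : (ℕ × ℕ) × List Bool => ∃ y, y ∈ U x.2 ∧ y.length = x.1.1 := by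
    refine S1.ex (S1.and ?_ (S1.of_prim ?_))
    · exact (Pool.Agent.W968.SSC.s1_graph hU).comp ((Primrec.snd.comp Primrec.fst).pair Primrec.snd)
    · exact Primrec.eq.comp (Primrec.list_length.comp Primrec.snd)
        (Primrec.fst.comp (Primrec.fst.comp Primrec.fst))
  have h2 := s1_measure_gt (P := fun (x : ℕ × ℕ) τ => ∃ y, y ∈ U τ ∧ y.length = x.1) h1
    (a := fun _ => 1) (b := fun x => 2 ^ x.2) (Primrec.const 1)
    (primrec_pow.comp (Primrec.const 2) Primrec.snd) (fun x => by positivity)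
  refine h2.of_eq fun x => ?_
  have h4 : ((1 : ℕ) : ℝ≥0∞) / ((2 ^ x.2 : ℕ) : ℝ≥0∞) ≠ ∞ :=
    ENNReal.div_ne_top (ENNReal.natCast_ne_top _) (by simp)
  have h5 : (lam (QS U x.1)) ≠ ∞ := measure_ne_top _ _
  have h6 : (((1 : ℕ) : ℝ≥0∞) / ((2 ^ x.2 : ℕ) : ℝ≥0∞)).toReal = (1 / 2 : ℝ) ^ x.2 := by
    rw [ENNReal.toReal_div, ENNReal.toReal_natCast, ENNReal.toReal_natCast]
    push_cast
    rw [one_div_pow]
  rw [← h6]
  unfold Q Measure.real
  rw [ENNReal.toReal_lt_toReal h4 h5]
  rfl

/-- `∑_{|x| = n} 2 ^ (-K(x)) ≤ 2 ^ (c - K(n))` -/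
theorem coding {U : List Bool →. List Bool} (hU : IsUniversal U) (num : ℕ → List Bool)
    (hnum : Computable num) : ∃ c : ℕ, ∀ n,
    Q U n ≤ 2 ^ c * (1 / 2 : ℝ) ^ KU U (num n) := by
  classical
  obtain ⟨c, hc⟩ := kc_re hU (fun x => ∃ n k : ℕ, (x = (num n, k + 1)) ∧ (1 / 2 : ℝ) ^ k < Q U n) (by
      have h1 : S1 fun x : ((List Bool × ℕ) × ℕ) × ℕ =>
          (x.1.1 = (num x.1.2, x.2 + 1)) ∧ (1 / 2 : ℝ) ^ x.2 < Q U x.1.2 := by
        refine S1.and ?_ ?_
        · have h2 : S1 fun z : (List Bool × ℕ) × (List Bool × ℕ) => z.1 = z.2 :=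
            S1.of_prim Primrec.eq
          refine S1.comp_computable h2 (f := fun x : ((List Bool × ℕ) × ℕ) × ℕ =>
            (x.1.1, (num x.1.2, x.2 + 1))) ?_
          exact (Computable.fst.comp Computable.fst).pair ((hnum.comp (Computable.snd.comp
            Computable.fst)).pair (Computable.succ.comp Computable.snd))
        · exact (S1.of_re (Q_re hU.1.1)).comp (f := fun x : ((List Bool × ℕ) × ℕ) × ℕ =>
            (x.1.2, x.2)) ((Primrec.snd.comp Primrec.fst).pair Primrec.snd)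
      exact (S1.ex (S1.ex h1)).re) (by
      intro T hT
      choose! f g hfg hQ using hT
      have h1 : ∀ x ∈ T, x = (num (f x), g x + 1) := fun x hx => hfg x hx
      have h2 : ∑ x ∈ T, (1 / 2 : ℝ) ^ x.2 = ∑ x ∈ T, (1 / 2) * (1 / 2 : ℝ) ^ g x := by
        refine Finset.sum_congr rfl fun x hx => ?_
        have h3 : x.2 = g x + 1 := congrArg Prod.snd (h1 x hx)
        rw [h3, pow_succ, mul_comm]
      rw [h2, ← Finset.sum_fiberwise_of_maps_to (s := T) (t := T.image f)
        (fun x hx => Finset.mem_image_of_mem _ hx)]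
      refine le_trans (Finset.sum_le_sum fun n _ => ?_) (sum_Q hU.1 (T.image f))
      rw [← Finset.mul_sum]
      have h4 : ∑ x ∈ T.filter (fun x => f x = n), (1 / 2 : ℝ) ^ g x =
          ∑ k ∈ (T.filter (fun x => f x = n)).image g, (1 / 2 : ℝ) ^ k := by
        rw [Finset.sum_image]
        intro x hx y hy hxy
        have hx' := Finset.mem_filter.1 hx
        have hy' := Finset.mem_filter.1 hy
        rw [h1 x hx'.1, h1 y hy'.1, hx'.2, hy'.2, hxy]
      rw [h4]
      have h5 := Pool.Agent.W968.SSC.geom_le (m := Q U n) measureReal_nonneg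
        ((T.filter (fun x => f x = n)).image g) (by
          intro k hk
          obtain ⟨x, hx, rfl⟩ := Finset.mem_image.1 hk
          have hx' := Finset.mem_filter.1 hx
          have := hQ x hx'.1
          rw [hx'.2] at this
          exact this)
      linarith)
  refine ⟨c + 2, fun n => ?_⟩
  by_cases h0 : Q U n ≤ 0
  · exact h0.trans (by positivity)
  push Not at h0
  obtain ⟨k, hk⟩ : ∃ k : ℕ, (1 / 2 : ℝ) ^ k < Q U n := exists_pow_lt_of_lt_one h0 (by norm_num)
  have hex : ∃ k : ℕ, (1 / 2 : ℝ) ^ k < Q U n := ⟨k, hk⟩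
  have h1 := Nat.find_spec hex
  have h2 := hc (num n, Nat.find hex + 1) ⟨n, Nat.find hex, rfl, h1⟩
  have hQ1 : Q U n ≤ 1 := measureReal_le_one
  have h3 : Q U n ≤ 2 * (1 / 2 : ℝ) ^ Nat.find hex := by
    rcases hj : Nat.find hex with _ | j
    · simp; linarith
    · have h4 := Nat.find_min hex (m := j) (by omega)
      push Not at h4
      rw [pow_succ]
      linarith
  have h5 : (1 / 2 : ℝ) ^ Nat.find hex ≤ 2 ^ (c + 1) * (1 / 2 : ℝ) ^ KU U (num n) := by
    have h6 : (1 / 2 : ℝ) ^ (Nat.find hex + 1 + c) ≤ (1 / 2 : ℝ) ^ KU U (num n) :=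
      pow_le_pow_of_le_one (by norm_num) (by norm_num) h2
    have h7 : (1 / 2 : ℝ) ^ Nat.find hex = 2 ^ (c + 1) * (1 / 2 : ℝ) ^ (Nat.find hex + 1 + c) := by
      have : (2 : ℝ) ^ (c + 1) * (1 / 2) ^ (c + 1) = 1 := by
        rw [← mul_pow]; norm_num
      calc (1 / 2 : ℝ) ^ Nat.find hex = (2 ^ (c + 1) * (1 / 2) ^ (c + 1)) * (1 / 2 : ℝ) ^ Nat.find hex := by
            rw [this, one_mul]
        _ = _ := by
            rw [mul_assoc, ← pow_add]
            congr 2
            omega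
    rw [h7]
    exact mul_le_mul_of_nonneg_left h6 (by positivity)
  calc Q U n ≤ 2 * (1 / 2 : ℝ) ^ Nat.find hex := h3
    _ ≤ 2 * (2 ^ (c + 1) * (1 / 2 : ℝ) ^ KU U (num n)) := by linarith
    _ = 2 ^ (c + 2) * (1 / 2 : ℝ) ^ KU U (num n) := by ring

end Pool.Agent.X234.MC
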